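import Pool.Agent.helper61.PNB.Model
/-! MODULE K0 : local computations for the Kähler forms `½ log ∑ |w_k|²`. -/
open Complex Metric Set Filter Topology InnerProductSpace
open scoped ContDiff Manifold Laplacian ComplexConjugate
noncomputable section
namespace PNB

theorem K_sum_sq_pos {ι : Type*} [Fintype ι] {w : ι → ℂ} (h0 : ∃ k, w k ≠ 0) :
    0 < ∑ k, ‖w k‖ ^ 2 := by
  obtain ⟨k, hk⟩ := h0
  exact Finset.sum_pos' (fun i _ => by positivity) ⟨k, Finset.mem_univ _, by positivity⟩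

/-- `½ log ∑ |w_k|²` is smooth near a point where `w` is smooth and `≠ 0` -/
theorem contDiffAt_logNorm {E : Type*} [NormedAddCommGroup E] [NormedSpace ℝ E]
    {ι : Type*} [Fintype ι] {w : E → ι → ℂ} {z : E}
    (hw : ∀ k, ContDiffAt ℝ ∞ (fun x => w x k) z) (h0 : ∃ k, w z k ≠ 0) :
    ContDiffAt ℝ ∞ (fun x => (1 / 2) * Real.log (∑ k, ‖w x k‖ ^ 2)) z := by
  refine contDiffAt_const.mul (ContDiffAt.log ?_ (K_sum_sq_pos h0).ne')
  exact ContDiffAt.sum fun k _ => (hw k).norm_sq ℝ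

/-- second derivative along a line -/
theorem K_iteratedFDeriv_two_line {f : ℂ → ℝ} (hf : ContDiffAt ℝ 2 f 0) (v : ℂ)
    {g : ℝ → ℝ} {g' : ℝ}
    (h1 : ∀ᶠ t in 𝓝 (0 : ℝ), HasDerivAt (fun t : ℝ => f ((t : ℂ) * v)) (g t) t)
    (h2 : HasDerivAt g g' 0) :
    iteratedFDeriv ℝ 2 f 0 ![v, v] = g' := by
  rw [iteratedFDeriv_two_apply]
  simp only [Matrix.cons_val_zero, Matrix.cons_val_one]
  have hline : ∀ t : ℝ, HasDerivAt (fun t : ℝ => (t : ℂ) * v) v t := by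
    intro t
    simpa using (Complex.ofRealCLM.hasDerivAt (x := t)).mul_const v
  -- f is differentiable near 0
  have hd : ∀ᶠ z in 𝓝 (0 : ℂ), DifferentiableAt ℝ f z := by
    filter_upwards [hf.eventually (by simp)] with z hz
    exact hz.differentiableAt (by norm_num)
  have hlim : Tendsto (fun t : ℝ => (t : ℂ) * v) (𝓝 0) (𝓝 0) := by
    have := (hline 0).continuousAt.tendsto
    simpa using this
  have hg : (fun t : ℝ => fderiv ℝ f ((t : ℂ) * v) v) =ᶠ[𝓝 0] g := by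
    filter_upwards [h1, hlim.eventually hd] with t ht1 ht2
    exact (ht2.hasFDerivAt.comp_hasDerivAt t (hline t)).unique ht1
  have hfd : HasFDerivAt (fderiv ℝ f) (fderiv ℝ (fderiv ℝ f) 0) ((((0 : ℝ)) : ℂ) * v) := by
    have : DifferentiableAt ℝ (fderiv ℝ f) 0 :=
      (hf.fderiv_right (m := 1) (by norm_num)).differentiableAt (by norm_num)
    simpa using this.hasFDerivAt
  have h3 := hfd.comp_hasDerivAt (0 : ℝ) (hline 0)
  have h4 : HasDerivAt (fun t : ℝ => fderiv ℝ f ((t : ℂ) * v) v) (fderiv ℝ (fderiv ℝ f) 0 v v) 0 := by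
    have := h3.clm_apply (hasDerivAt_const (0 : ℝ) v)
    simpa using this
  exact (h4.congr_of_eventuallyEq hg.symm).unique h2

/-- exact value of the Laplacian -/
theorem laplacian_logNorm_eq {ι : Type*} [Fintype ι] {w : ℂ → ι → ℂ}
    (hw : ∀ k, AnalyticAt ℂ (fun x => w x k) 0) (h0 : ∃ k, w 0 k ≠ 0) :
    (Δ (fun ζ => (1 / 2) * Real.log (∑ k, ‖w ζ k‖ ^ 2))) 0 =
      2 * ((∑ k, ‖deriv (fun x => w x k) 0‖ ^ 2) * (∑ k, ‖w 0 k‖ ^ 2) -
        ‖∑ k, conj (w 0 k) * deriv (fun x => w x k) 0‖ ^ 2) / (∑ k, ‖w 0 k‖ ^ 2) ^ 2 := by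
  set f : ℂ → ℝ := fun ζ => (1 / 2) * Real.log (∑ k, ‖w ζ k‖ ^ 2) with hf
  have hpos : 0 < ∑ k, ‖w 0 k‖ ^ 2 := K_sum_sq_pos h0
  have hsm : ContDiffAt ℝ ∞ f 0 := contDiffAt_logNorm (fun k =>
    ((hw k).contDiffAt (n := ∞)).restrict_scalars ℝ) h0
  have hsm2 : ContDiffAt ℝ 2 f 0 := hsm.of_le (WithTop.coe_le_coe.2 le_top)
  have hcont : ContinuousAt (fun ζ => ∑ k, ‖w ζ k‖ ^ 2) 0 :=
    tendsto_finsetSum _ fun k _ => ((hw k).continuousAt.norm.pow 2)
  have hev : ∀ᶠ z in 𝓝 (0 : ℂ), 0 < ∑ k, ‖w z k‖ ^ 2 := hcont.eventually (lt_mem_nhds hpos)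
  have hevd : ∀ᶠ z in 𝓝 (0 : ℂ), ∀ k, HasDerivAt (fun x => w x k) (deriv (fun x => w x k) z) z := by
    rw [eventually_all]
    intro k
    filter_upwards [(hw k).eventually_analyticAt] with z hz
    exact hz.differentiableAt.hasDerivAt
  have hd2 : ∀ k, HasDerivAt (deriv (fun x => w x k)) (deriv (deriv (fun x => w x k)) 0) 0 :=
    fun k => (hw k).deriv.differentiableAt.hasDerivAt
  -- the second derivative in direction v
  have key : ∀ v : ℂ, iteratedFDeriv ℝ 2 f 0 ![v, v] =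
      ((∑ k, (⟪w 0 k, v ^ 2 * deriv (deriv (fun x => w x k)) 0⟫_ℝ +
        ‖v * deriv (fun x => w x k) 0‖ ^ 2)) * (∑ k, ‖w 0 k‖ ^ 2) -
        2 * (∑ k, ⟪w 0 k, v * deriv (fun x => w x k) 0⟫_ℝ) ^ 2) / (∑ k, ‖w 0 k‖ ^ 2) ^ 2 := by
    intro v
    have hline : ∀ t : ℝ, HasDerivAt (fun t : ℝ => (t : ℂ) * v) v t := by
      intro t
      simpa using (Complex.ofRealCLM.hasDerivAt (x := t)).mul_const v
    have hlim : Tendsto (fun t : ℝ => (t : ℂ) * v) (𝓝 0) (𝓝 0) := by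
      have := (hline 0).continuousAt.tendsto
      simpa using this
    have hW : ∀ t : ℝ, (∀ k, HasDerivAt (fun x => w x k) (deriv (fun x => w x k) ((t : ℂ) * v)) ((t : ℂ) * v)) →
        ∀ k, HasDerivAt (fun t : ℝ => w ((t : ℂ) * v) k) (v * deriv (fun x => w x k) ((t : ℂ) * v)) t := by
      intro t ht k
      have := (ht k).scomp (𝕜 := ℝ) t (hline t)
      simpa [smul_eq_mul, Function.comp_def] using this
    refine K_iteratedFDeriv_two_line hsm2 v (g := fun t : ℝ =>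
      (∑ k, ⟪w ((t : ℂ) * v) k, v * deriv (fun x => w x k) ((t : ℂ) * v)⟫_ℝ) /
        (∑ k, ‖w ((t : ℂ) * v) k‖ ^ 2)) ?_ ?_
    · filter_upwards [hlim.eventually hev, hlim.eventually hevd] with t ht1 ht2
      have h := hW t ht2
      have h3 : HasDerivAt (fun t : ℝ => ∑ k, ‖w ((t : ℂ) * v) k‖ ^ 2)
          (∑ k, 2 * ⟪w ((t : ℂ) * v) k, v * deriv (fun x => w x k) ((t : ℂ) * v)⟫_ℝ) t :=
        HasDerivAt.fun_sum fun k _ => (h k).norm_sq
      have h4 := (h3.log ht1.ne').const_mul (1 / 2)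
      refine h4.congr_deriv ?_
      rw [← Finset.mul_sum]
      field_simp
    · have hz : ((0 : ℝ) : ℂ) * v = 0 := by simp
      have h := hW 0 (by rw [hz]; exact hevd.self_of_nhds)
      have hV : ∀ k, HasDerivAt (fun t : ℝ => v * deriv (fun x => w x k) ((t : ℂ) * v))
          (v * (v * deriv (deriv (fun x => w x k)) 0)) 0 := by
        intro k
        have h5 : HasDerivAt (deriv (fun x => w x k)) (deriv (deriv (fun x => w x k)) 0)
          (((0 : ℝ) : ℂ) * v) := by rw [hz]; exact hd2 k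
        have := (h5.scomp (𝕜 := ℝ) (0 : ℝ) (hline 0)).const_mul v
        simpa [smul_eq_mul, Function.comp_def] using this
      have hN : HasDerivAt (fun t : ℝ =>
          ∑ k, ⟪w ((t : ℂ) * v) k, v * deriv (fun x => w x k) ((t : ℂ) * v)⟫_ℝ)
          (∑ k, (⟪w 0 k, v * (v * deriv (deriv (fun x => w x k)) 0)⟫_ℝ +
            ⟪v * deriv (fun x => w x k) 0, v * deriv (fun x => w x k) 0⟫_ℝ)) 0 := by
        refine HasDerivAt.fun_sum fun k _ => ?_
        have := (h k).inner ℝ (hV k)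
        simpa [hz] using this
      have hD : HasDerivAt (fun t : ℝ => ∑ k, ‖w ((t : ℂ) * v) k‖ ^ 2)
          (∑ k, 2 * ⟪w 0 k, v * deriv (fun x => w x k) 0⟫_ℝ) 0 := by
        refine HasDerivAt.fun_sum fun k _ => ?_
        have := (h k).norm_sq
        simpa [hz] using this
      have := hN.div hD (by simpa [hz] using hpos.ne')
      refine this.congr_deriv ?_
      simp only [hz, real_inner_self_eq_norm_sq, ← Finset.mul_sum]
      have e1 : ∀ k, v * (v * deriv (deriv (fun x => w x k)) 0) =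
        v ^ 2 * deriv (deriv (fun x => w x k)) 0 := fun k => by ring
      simp only [e1]
      ring
  rw [laplacian_eq_iteratedFDeriv_complexPlane]
  simp only [key]
  rw [← add_div]
  congr 1
  have e2 : ∀ k, ⟪w 0 k, I ^ 2 * deriv (deriv (fun x => w x k)) 0⟫_ℝ =
      - ⟪w 0 k, deriv (deriv (fun x => w x k)) 0⟫_ℝ := by
    intro k
    rw [Complex.I_sq, neg_one_mul, inner_neg_right]
  have e3 : ∀ k, ‖I * deriv (fun x => w x k) 0‖ = ‖deriv (fun x => w x k) 0‖ := by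
    intro k; simp
  simp only [e2, e3, one_pow, one_mul]
  have e4 : ‖∑ k, conj (w 0 k) * deriv (fun x => w x k) 0‖ ^ 2 =
      (∑ k, ⟪w 0 k, deriv (fun x => w x k) 0⟫_ℝ) ^ 2 +
      (∑ k, ⟪w 0 k, I * deriv (fun x => w x k) 0⟫_ℝ) ^ 2 := by
    rw [← Complex.normSq_eq_norm_sq, Complex.normSq_apply, ← sq, ← sq]
    have r1 : (∑ k, conj (w 0 k) * deriv (fun x => w x k) 0).re =
        ∑ k, ⟪w 0 k, deriv (fun x => w x k) 0⟫_ℝ := by
      rw [Complex.re_sum]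
      refine Finset.sum_congr rfl fun k _ => ?_
      simp [Complex.inner]
      try ring
    have r2 : (∑ k, conj (w 0 k) * deriv (fun x => w x k) 0).im =
        - ∑ k, ⟪w 0 k, I * deriv (fun x => w x k) 0⟫_ℝ := by
      rw [Complex.im_sum, ← Finset.sum_neg_distrib]
      refine Finset.sum_congr rfl fun k _ => ?_
      simp [Complex.inner]
      try ring
    rw [r1, r2, neg_sq]
  rw [e4]
  simp only [Finset.sum_add_distrib, Finset.sum_neg_distrib]
  ring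

theorem K_cs_finset {ι : Type*} (s : Finset ι) (a b : ι → ℂ) :
    ‖∑ k ∈ s, conj (a k) * b k‖ ^ 2 ≤ (∑ k ∈ s, ‖b k‖ ^ 2) * (∑ k ∈ s, ‖a k‖ ^ 2) := by
  have h1 : ‖∑ k ∈ s, conj (a k) * b k‖ ≤ ∑ k ∈ s, ‖b k‖ * ‖a k‖ := by
    refine (norm_sum_le _ _).trans (Finset.sum_le_sum fun k _ => ?_)
    rw [norm_mul, RCLike.norm_conj, mul_comm]
  calc ‖∑ k ∈ s, conj (a k) * b k‖ ^ 2 ≤ (∑ k ∈ s, ‖b k‖ * ‖a k‖) ^ 2 := by gcongr
    _ ≤ _ := Finset.sum_mul_sq_le_sq_mul_sq _ _ _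

/-- Laplacian of `½ log ∑ |w_k|²` for holomorphic `w : ℂ → ℂ^ι` is `≥ 0` ... -/
theorem laplacian_logNorm_nonneg {ι : Type*} [Fintype ι] {w : ℂ → ι → ℂ}
    (hw : ∀ k, AnalyticAt ℂ (fun x => w x k) 0) (h0 : ∃ k, w 0 k ≠ 0) :
    0 ≤ (Δ (fun ζ => (1 / 2) * Real.log (∑ k, ‖w ζ k‖ ^ 2))) 0 := by
  rw [laplacian_logNorm_eq hw h0]
  have := K_cs_finset Finset.univ (w 0) (fun k => deriv (fun x => w x k) 0)
  exact div_nonneg (mul_nonneg zero_le_two (sub_nonneg.2 this)) (by positivity)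

/-- ... and `> 0` when some coordinate is a nonzero constant (near 0) while some coordinate has
nonzero derivative. (exact value: `2 (|w|²|w'|² - |⟨w,w'⟩|²)/|w|⁴`) -/
theorem laplacian_logNorm_pos {ι : Type*} [Fintype ι] {w : ℂ → ι → ℂ}
    (hw : ∀ k, AnalyticAt ℂ (fun x => w x k) 0) {k0 k1 : ι} (h0 : w 0 k0 ≠ 0)
    (h0' : deriv (fun x => w x k0) 0 = 0) (h1 : deriv (fun x => w x k1) 0 ≠ 0) :
    0 < (Δ (fun ζ => (1 / 2) * Real.log (∑ k, ‖w ζ k‖ ^ 2))) 0 := by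
  classical
  rw [laplacian_logNorm_eq hw ⟨k0, h0⟩]
  have hpos : 0 < ∑ k, ‖w 0 k‖ ^ 2 := K_sum_sq_pos ⟨k0, h0⟩
  have hpos' : 0 < ∑ k, ‖deriv (fun x => w x k) 0‖ ^ 2 :=
    K_sum_sq_pos (w := fun k => deriv (fun x => w x k) 0) ⟨k1, h1⟩
  have e1 : ∑ k, conj (w 0 k) * deriv (fun x => w x k) 0 =
      ∑ k ∈ Finset.univ.erase k0, conj (w 0 k) * deriv (fun x => w x k) 0 := by
    rw [← Finset.add_sum_erase Finset.univ _ (Finset.mem_univ k0), h0', mul_zero, zero_add]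
  have e2 : ∑ k ∈ Finset.univ.erase k0, ‖deriv (fun x => w x k) 0‖ ^ 2 =
      ∑ k, ‖deriv (fun x => w x k) 0‖ ^ 2 := by
    rw [← Finset.add_sum_erase Finset.univ _ (Finset.mem_univ k0), h0']
    simp
  have e3 : ∑ k ∈ Finset.univ.erase k0, ‖w 0 k‖ ^ 2 < ∑ k, ‖w 0 k‖ ^ 2 := by
    rw [← Finset.add_sum_erase Finset.univ _ (Finset.mem_univ k0)]
    have : 0 < ‖w 0 k0‖ ^ 2 := by positivity
    linarith
  have := K_cs_finset (Finset.univ.erase k0) (w 0) (fun k => deriv (fun x => w x k) 0)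
  rw [← e1, e2] at this
  have h5 : ‖∑ k, conj (w 0 k) * deriv (fun x => w x k) 0‖ ^ 2 <
      (∑ k, ‖deriv (fun x => w x k) 0‖ ^ 2) * ∑ k, ‖w 0 k‖ ^ 2 :=
    this.trans_lt (mul_lt_mul_of_pos_left e3 hpos')
  exact div_pos (mul_pos zero_lt_two (sub_pos.2 h5)) (by positivity)

end PNB
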