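import Pool.Agent.helper20.PNB.K0
/-! MODULE K1 : the Levi form of `pot (1,1,1) 1` along a line. -/
open Complex Metric Set Filter Topology InnerProductSpace
open scoped ContDiff Manifold Laplacian ComplexConjugate
noncomputable section
namespace PNB

theorem K_sum_fin2_pos {x : Fin 2 → ℂ} (hx : x ≠ 0) : 0 < ∑ k, ‖x k‖ ^ 2 := by
  apply K_sum_sq_pos
  by_contra h
  push Not at h
  exact hx (funext h)

theorem K_potInner_pos {p : Lift} (hp : p ∈ LS) :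
    0 < ∑ q, ‖p.2.1 q‖ ^ 2 + ‖p.2.2‖ ^ 2 * ∏ j, ∑ k, ‖p.1 j k‖ ^ 2 := by
  have hprod : 0 < ∏ j, ∑ k, ‖p.1 j k‖ ^ 2 := Finset.prod_pos fun j _ => K_sum_fin2_pos (hp.1 j)
  rcases hp.2.1 with h | h
  · have : 0 < ∑ q, ‖p.2.1 q‖ ^ 2 := by
      apply K_sum_sq_pos
      by_contra h'
      push Not at h'
      exact h (funext h')
    have h2 : 0 ≤ ‖p.2.2‖ ^ 2 * ∏ j, ∑ k, ‖p.1 j k‖ ^ 2 := by positivity
    linarith
  · have : 0 < ‖p.2.2‖ ^ 2 * ∏ j, ∑ k, ‖p.1 j k‖ ^ 2 := by positivity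
    have h2 : 0 ≤ ∑ q, ‖p.2.1 q‖ ^ 2 := by positivity
    linarith

theorem K_log_norm_smul {c : ℂ} (hc : c ≠ 0) {S : ℝ} (hS : 0 < S) :
    (1 / 2) * Real.log (‖c‖ ^ 2 * S) = Real.log ‖c‖ + (1 / 2) * Real.log S := by
  have : ‖c‖ ≠ 0 := by simpa using hc
  rw [Real.log_mul (by positivity) hS.ne', Real.log_pow]
  push_cast
  ring

theorem pot_act (a : Fin 3 → ℝ) (b : ℝ) {c : Fin 3 → ℂ} {d : ℂ} (hc : ∀ j, c j ≠ 0) (hd : d ≠ 0)
    {p : Lift} (hp : p ∈ LS) :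
    pot a b (act c d p) = pot a b p + ∑ j, a j * Real.log ‖c j‖ + b * Real.log ‖d‖ := by
  have h1 : ∀ j, (1 / 2) * Real.log (∑ k, ‖(act c d p).1 j k‖ ^ 2) =
      Real.log ‖c j‖ + (1 / 2) * Real.log (∑ k, ‖p.1 j k‖ ^ 2) := by
    intro j
    rw [← K_log_norm_smul (hc j) (K_sum_fin2_pos (hp.1 j)), Finset.mul_sum]
    simp [act, mul_pow]
  have h2 : ∑ q, ‖(act c d p).2.1 q‖ ^ 2 + ‖(act c d p).2.2‖ ^ 2 * ∏ j, ∑ k, ‖(act c d p).1 j k‖ ^ 2
      = ‖d‖ ^ 2 * (∑ q, ‖p.2.1 q‖ ^ 2 + ‖p.2.2‖ ^ 2 * ∏ j, ∑ k, ‖p.1 j k‖ ^ 2) := by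
    have h3 : ∀ j, ∑ k, ‖(act c d p).1 j k‖ ^ 2 = ‖c j‖ ^ 2 * ∑ k, ‖p.1 j k‖ ^ 2 := by
      intro j
      rw [Finset.mul_sum]
      simp [act, mul_pow]
    have h4 : ∑ q, ‖(act c d p).2.1 q‖ ^ 2 = ‖d‖ ^ 2 * ∑ q, ‖p.2.1 q‖ ^ 2 := by
      rw [Finset.mul_sum]
      simp [act, mul_pow]
    have h5 : ∏ j, ‖c j‖ ^ 2 ≠ 0 := Finset.prod_ne_zero_iff.2 fun j _ => by
      have := hc j
      positivity
    simp only [h3, h4, Finset.prod_mul_distrib]
    have h6 : ‖(act c d p).2.2‖ ^ 2 = ‖d‖ ^ 2 * (∏ j, ‖c j‖ ^ 2)⁻¹ * ‖p.2.2‖ ^ 2 := by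
      simp only [act, norm_mul, norm_inv, norm_prod, mul_pow, inv_pow, Finset.prod_pow]
    rw [h6]
    field_simp
  unfold pot
  rw [h2, K_log_norm_smul hd (K_potInner_pos hp)]
  simp only [h1, mul_add, Finset.sum_add_distrib]
  ring

theorem contDiffAt_pot (a : Fin 3 → ℝ) (b : ℝ) {p : Lift} (hp : p ∈ LS) :
    ContDiffAt ℝ ∞ (pot a b) p := by
  have hx : ∀ j k, ContDiffAt ℝ ∞ (fun p : Lift => p.1 j k) p := fun j k => by fun_prop
  have hT : ∀ q, ContDiffAt ℝ ∞ (fun p : Lift => p.2.1 q) p := fun q => by fun_prop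
  have hs : ContDiffAt ℝ ∞ (fun p : Lift => p.2.2) p := by fun_prop
  unfold pot
  refine ContDiffAt.add (ContDiffAt.sum fun j _ => contDiffAt_const.mul ?_) (contDiffAt_const.mul ?_)
  · exact contDiffAt_logNorm (w := fun (p : Lift) k => p.1 j k) (hx j) (by
      by_contra h
      push Not at h
      exact hp.1 j (funext h))
  · refine contDiffAt_const.mul (ContDiffAt.log ?_ (K_potInner_pos hp).ne')
    refine ContDiffAt.add (ContDiffAt.sum fun q _ => (hT q).norm_sq ℝ) ?_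
    refine (hs.norm_sq ℝ).mul (contDiffAt_prod fun j _ => ?_)
    exact ContDiffAt.sum fun k _ => (hx j k).norm_sq ℝ

/-- the vector of all coordinates `(T, s x₀ ⊗ x₁ ⊗ x₂)` -/
def K_bigW (p : Lift) : Q ⊕ (Fin 3 → Fin 2) → ℂ
  | Sum.inl q => p.2.1 q
  | Sum.inr κ => p.2.2 * ∏ j, p.1 j (κ j)

theorem K_bigW_sum (p : Lift) : ∑ o, ‖K_bigW p o‖ ^ 2 =
    ∑ q, ‖p.2.1 q‖ ^ 2 + ‖p.2.2‖ ^ 2 * ∏ j, ∑ k, ‖p.1 j k‖ ^ 2 := by
  rw [Fintype.sum_sum_type]
  simp only [K_bigW, norm_mul, norm_prod, mul_pow, ← Finset.prod_pow]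
  rw [← Finset.mul_sum, Finset.prod_univ_sum]
  simp

theorem K_wsec_differentiable (i : CI) (u v : Fin 26 → ℂ) (o : Option Q) :
    Differentiable ℂ (fun ζ : ℂ => wsec i (u + ζ • v) o) := by
  unfold wsec
  split_ifs
  · fun_prop
  · simp only [Pi.add_apply, Pi.smul_apply, smul_eq_mul]
    fun_prop
  · fun_prop

theorem K_xsec_differentiable (i : CI) (u v : Fin 3 → ℂ) (j : Fin 3) (k : Fin 2) :
    Differentiable ℂ (fun ζ : ℂ => xsec i (u + ζ • v) j k) := by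
  unfold xsec
  split_ifs
  · fun_prop
  · simp only [Pi.add_apply, Pi.smul_apply, smul_eq_mul]
    fun_prop

theorem K_bigW_differentiable (i : CI) (z v : EE) (o : Q ⊕ (Fin 3 → Fin 2)) :
    Differentiable ℂ (fun ζ : ℂ => K_bigW (sec i (z + ζ • v)) o) := by
  have hx : ∀ j k, Differentiable ℂ (fun ζ : ℂ => xsec i (z.1 + ζ • v.1) j k) :=
    fun j k => K_xsec_differentiable i z.1 v.1 j k
  have hw : ∀ o, Differentiable ℂ (fun ζ : ℂ => wsec i (z.2 + ζ • v.2) o) :=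
    fun o => K_wsec_differentiable i z.2 v.2 o
  rcases o with q | κ
  · simp only [K_bigW, sec, Prod.fst_add, Prod.snd_add, Prod.smul_fst, Prod.smul_snd]
    refine (hw (some q)).sub ?_
    split_ifs
    · unfold ev mono
      refine Differentiable.fun_sum fun q _ => (hw (some q)).mul ?_
      intro ζ
      refine DifferentiableAt.fun_finsetProd fun j _ => ?_
      exact ((hx j 0 ζ).pow _).mul ((hx j 1 ζ).pow _)
    · fun_prop
  · simp only [K_bigW, sec, Prod.fst_add, Prod.snd_add, Prod.smul_fst, Prod.smul_snd]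
    refine (hw none).mul ?_
    intro ζ
    exact DifferentiableAt.fun_finsetProd fun j _ => hx j (κ j) ζ

theorem K_xsec_ne (i : CI) (u : Fin 3 → ℂ) (j : Fin 3) : xsec i u j (i.σ j) ≠ 0 := by
  simp [xsec]

/-- the coordinate of `K_bigW` that is constant equal to `1` -/
def K_cidx (i : CI) : Q ⊕ (Fin 3 → Fin 2) :=
  match i.c with
  | none => Sum.inr i.σ
  | some q => Sum.inl q

theorem K_bigW_cidx (i : CI) (z : EE) : K_bigW (sec i z) (K_cidx i) = 1 := by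
  obtain ⟨σ, c, hc⟩ := i
  rcases c with _ | q
  · simp [K_cidx, K_bigW, sec, wsec, xsec]
  · have : q ≠ bidx σ := fun h => hc (by rw [h])
    simp [K_cidx, K_bigW, sec, wsec, this]

theorem K_bigW_idx (i : CI) (k : Fin 26) : ∃ o, ∀ z : EE, K_bigW (sec i z) o = z.2 k := by
  obtain ⟨o, ho1, ho2⟩ : ∃ o : {o : Option Q // o ≠ i.c ∧ o ≠ some (bidx i.σ)}, idx i o = k ∧ True :=
    ⟨(idx i).symm k, by simp, trivial⟩
  obtain ⟨o, h1, h2⟩ := o
  rcases o with _ | q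
  · refine ⟨Sum.inr i.σ, fun z => ?_⟩
    have h3 : wsec i z.2 none = z.2 k := by
      unfold wsec
      rw [if_neg h1, dif_pos ⟨h1, h2⟩, ho1]
    simp [K_bigW, sec, xsec, h3]
  · refine ⟨Sum.inl q, fun z => ?_⟩
    have h3 : wsec i z.2 (some q) = z.2 k := by
      unfold wsec
      rw [if_neg h1, dif_pos ⟨h1, h2⟩, ho1]
    have : q ≠ bidx i.σ := fun h => h2 (by rw [h])
    simp [K_bigW, sec, h3, this]

/-- positivity: `pot (1,1,1) 1` along the curve `ζ ↦ sec i (z + ζ v)`. -/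
theorem laplacian_pot_pos (i : CI) (z v : EE) (hv : v ≠ 0) :
    0 < (Δ (fun ζ : ℂ => pot (fun _ => 1) 1 (sec i (z + ζ • v)))) 0 := by
  set L : Fin 3 → ℂ → ℝ := fun j ζ => (1 / 2) * Real.log (∑ k, ‖xsec i (z.1 + ζ • v.1) j k‖ ^ 2)
    with hL
  set M : ℂ → ℝ := fun ζ => (1 / 2) * Real.log (∑ o, ‖K_bigW (sec i (z + ζ • v)) o‖ ^ 2) with hM
  have e : (fun ζ : ℂ => pot (fun _ => 1) 1 (sec i (z + ζ • v))) = ((L 0 + L 1) + L 2) + M := by
    funext ζ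
    simp only [pot, Pi.add_apply, hL, hM, K_bigW_sum, Fin.sum_univ_three, one_mul]
    rfl
  have hLa : ∀ j k, AnalyticAt ℂ (fun ζ : ℂ => xsec i (z.1 + ζ • v.1) j k) 0 :=
    fun j k => (K_xsec_differentiable i z.1 v.1 j k).analyticAt 0
  have hMa : ∀ o, AnalyticAt ℂ (fun ζ : ℂ => K_bigW (sec i (z + ζ • v)) o) 0 :=
    fun o => (K_bigW_differentiable i z v o).analyticAt 0
  have hLne : ∀ j, ∃ k, xsec i (z.1 + (0 : ℂ) • v.1) j k ≠ 0 := fun j => ⟨i.σ j, K_xsec_ne i _ j⟩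
  have hMne : ∃ o, K_bigW (sec i (z + (0 : ℂ) • v)) o ≠ 0 := ⟨K_cidx i, by rw [K_bigW_cidx]; simp⟩
  have le2 : (2 : ℕ∞ω) ≤ ∞ := WithTop.coe_le_coe.2 le_top
  have hLc : ∀ j, ContDiffAt ℝ 2 (L j) 0 := fun j =>
    (contDiffAt_logNorm (w := fun ζ k => xsec i (z.1 + ζ • v.1) j k) (fun k =>
      ((hLa j k).contDiffAt (n := ∞)).restrict_scalars ℝ) (hLne j)).of_le le2
  have hMc : ContDiffAt ℝ 2 M 0 :=
    (contDiffAt_logNorm (w := fun ζ o => K_bigW (sec i (z + ζ • v)) o) (fun o =>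
      ((hMa o).contDiffAt (n := ∞)).restrict_scalars ℝ) hMne).of_le le2
  have c1 : ContDiffAt ℝ 2 (L 0 + L 1) 0 := (hLc 0).add (hLc 1)
  have c2 : ContDiffAt ℝ 2 (L 0 + L 1 + L 2) 0 := c1.add (hLc 2)
  rw [e, c2.laplacian_add hMc, c1.laplacian_add (hLc 2), (hLc 0).laplacian_add (hLc 1)]
  have hLn : ∀ j, 0 ≤ (Δ (L j)) 0 := fun j =>
    laplacian_logNorm_nonneg (w := fun ζ k => xsec i (z.1 + ζ • v.1) j k) (hLa j) (hLne j)
  have hMn : 0 ≤ (Δ M) 0 :=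
    laplacian_logNorm_nonneg (w := fun ζ o => K_bigW (sec i (z + ζ • v)) o) hMa hMne
  by_cases h1 : v.1 = 0
  · have h2 : v.2 ≠ 0 := fun h => hv (Prod.ext h1 h)
    obtain ⟨k, hk⟩ : ∃ k, v.2 k ≠ 0 := by
      by_contra h
      push Not at h
      exact h2 (funext h)
    obtain ⟨o, ho⟩ := K_bigW_idx i k
    have : 0 < (Δ M) 0 := by
      refine laplacian_logNorm_pos (w := fun ζ o => K_bigW (sec i (z + ζ • v)) o) hMa
        (k0 := K_cidx i) (k1 := o) ?_ ?_ ?_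
      · simp only [K_bigW_cidx]; simp
      · simp only [K_bigW_cidx]; simp
      · simp only [ho, Prod.snd_add, Prod.smul_snd, Pi.add_apply, Pi.smul_apply, smul_eq_mul]
        rw [deriv_const_add, deriv_mul_const (by fun_prop)]
        simpa using hk
    linarith [hLn 0, hLn 1, hLn 2]
  · obtain ⟨j, hj⟩ : ∃ j, v.1 j ≠ 0 := by
      by_contra h
      push Not at h
      exact h1 (funext h)
    have hpos : 0 < (Δ (L j)) 0 := by
      refine laplacian_logNorm_pos (w := fun ζ k => xsec i (z.1 + ζ • v.1) j k) (hLa j)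
        (k0 := i.σ j) (k1 := i.σ j + 1) ?_ ?_ ?_
      · exact K_xsec_ne i _ j
      · simp [xsec]
      · have hne : i.σ j + 1 ≠ i.σ j := by
          generalize i.σ j = s
          fin_cases s <;> simp
        simp only [xsec, if_neg hne, Pi.add_apply, Pi.smul_apply, smul_eq_mul]
        rw [deriv_const_add, deriv_mul_const (by fun_prop)]
        simpa using hj
    have h0 := hLn 0
    have h1' := hLn 1
    have h2' := hLn 2
    fin_cases j
    · simp only [Fin.zero_eta] at hpos; linarith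
    · simp only [Fin.mk_one] at hpos; linarith
    · simp only [Fin.reduceFinMk] at hpos; linarith
end PNB
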